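import Pool.Agent.Run7.h95.CofM

/-!
# Under the club principle without Souslin trees: `𝔡 > ℵ₁` or `non(M) > ℵ₁`
-/

set_option autoImplicit false

namespace Pool.Agent.Results.MP_e99821_lc.LargeCofinality

open Cardinal Filter Run7.h95

/-- If the club principle holds and there is no `ℵ₁`-Souslin tree, then either no family of at
most `ℵ₁` functions is dominating, or every set of at most `ℵ₁` points of the Baire space is
meager. -/
theorem result (hclub : Club) (hns : ¬ ExistsSouslinTree) :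
    (∀ D : Set (ℕ → ℕ), #D ≤ ℵ₁ → ∃ f : ℕ → ℕ, ∀ g ∈ D, ¬ ∀ᶠ n in atTop, f n ≤ g n) ∨
      ∀ F : Set (ℕ → ℕ), #F ≤ ℵ₁ → IsMeagre F := by
  by_contra hcon
  push Not at hcon
  obtain ⟨⟨D, hD, hdom⟩, F, hF, hnm⟩ := hcon
  exact hns (exists_souslin_of hclub hD hF hdom hnm)

end Pool.Agent.Results.MP_e99821_lc.LargeCofinality
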