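import Pool.Agent.Run7.h95.CovM

/-!
# Under the club principle: a Souslin tree, or a covering of the Cantor space by `ℵ₁` nowhere
dense sets
-/

set_option autoImplicit false

namespace Pool.Agent.Results.MP_e99821_lc.SouslinOrCovering

open Cardinal Run7.h95

/-- If the club principle holds and there is no `ℵ₁`-Souslin tree, then the Cantor space is the
union of at most `ℵ₁` nowhere dense sets. -/
theorem result (hclub : Club) (hns : ¬ ExistsSouslinTree) :
    ∃ N : Set (Set (ℕ → Bool)),
      #N ≤ ℵ₁ ∧ (∀ s ∈ N, IsNowhereDense s) ∧ ⋃₀ N = Set.univ := by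
  obtain ⟨S, hS, hst⟩ := stick_of_club hclub
  exact cover_of_stick le_rfl hS hst hns

end Pool.Agent.Results.MP_e99821_lc.SouslinOrCovering
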