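import Pool.Agent.Run7.h95.Main

/-!
# The club principle gives an Aronszajn tree all of whose uncountable subtrees split everywhere
-/

set_option autoImplicit false

namespace Pool.Agent.Results.MP_e99821_lc.SplittingAronszajnTree

open Run7.h95

/-- If the club principle holds, then there is an Aronszajn tree `T` such that every uncountable
lower set `Y` of `T` contains, for every `k` and on all but countably many levels, a node with at
least `k` immediate successors in `Y`. -/
theorem result (hclub : Club) :
    ∃ (T : Type) (_ : PartialOrder T), IsAronszajnTree T ∧ SplitsEverywhere T :=
  exists_splitting_tree hclub

end Pool.Agent.Results.MP_e99821_lc.SplittingAronszajnTree
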